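import Pool.Agent.Q87.MatShift

/-! Full answer (yes): for `𝕂 = ℝ` or `ℂ`, every `d ≥ 2` and every `1 ≤ p < ∞` there is a bounded
family of invertible `d × d` matrices (even a constant one, `1 + E₀₁`) whose shift operator on
`ℓ_p(𝕂^d)` is not linearly conjugate to any finite product of weighted backward shifts. -/

set_option autoImplicit false
open scoped ENNReal
open Q87.MatShift

namespace Pool.Agent.Results.MP_43e0cc_an.UnipotentShift

/-- For each `d ≥ 2` and each finite `p ≥ 1` there is a family `S_n` of invertible maps of `𝕂^d`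
with `‖S_n‖`, `‖S_n⁻¹‖` bounded such that no bounded linear bijection from `ℓ_p(𝕂^d)` onto
`ℓ_p(𝕂)^k` conjugates the shift operator `σ_S` to a product of `k` weighted backward shifts,
whatever `k` and the weights. -/
theorem result (𝕂 : Type*) [RCLike 𝕂] (d : ℕ) (hd : 2 ≤ d) (p : ℝ≥0∞) [Fact (1 ≤ p)]
    (hp : p ≠ ⊤) : ∃ A : MatFamily 𝕂 d, ¬ ConjToProduct hp A := by
  let i0 : Fin d := ⟨0, by omega⟩
  let i1 : Fin d := ⟨1, by omega⟩
  have hne : i0 ≠ i1 := by
    intro h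
    have := congrArg Fin.val h
    simp [i0, i1] at this
  let N : Eu 𝕂 d →L[𝕂] Eu 𝕂 d :=
    (EuclideanSpace.proj i1 : Eu 𝕂 d →L[𝕂] 𝕂).smulRight
      (EuclideanSpace.single i0 (1 : 𝕂))
  have hN : ∀ v, N v = (v i1) • EuclideanSpace.single i0 (1 : 𝕂) := fun v => rfl
  have hNN : ∀ v, N (N v) = 0 := by
    intro v
    rw [hN, hN]
    simp [hne.symm]
  have hN0 : ∃ v, N v ≠ 0 := by
    refine ⟨EuclideanSpace.single i1 1, fun h => ?_⟩
    rw [hN] at h
    have := congrArg (fun w : Eu 𝕂 d => w i0) h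
    simp at this
  refine ⟨⟨fun _ => ContinuousLinearMap.id 𝕂 (Eu 𝕂 d) + N,
    fun _ => ContinuousLinearMap.id 𝕂 (Eu 𝕂 d) - N,
    fun _ v => ⟨by simp [hNN], by simp [hNN]⟩, ⟨_, fun _ => le_rfl⟩, ⟨_, fun _ => le_rfl⟩⟩, ?_⟩
  exact not_conjToProduct hp _ N (fun _ => rfl) hNN hN0

end Pool.Agent.Results.MP_43e0cc_an.UnipotentShift
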